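import Mathlib
import Pool.Agent.Results.MP_215b2d_al.OddWord

/-!
# Every odd number at least `21` is the length of a non-surjective word

For `w(x, y) = x⁶ y x⁻² y⁻¹ x² y x⁻³ y⁻¹ x y x⁻¹ y⁻¹`, `b ≥ 1` and `j ≥ 0` the word
`w_{b,j} = yʲ w(x, yᵇ) y⁻ʲ` has length `15 + 6 b + 2 j`; it is cyclically reduced for `j = 0`. Its
word map is not surjective on `PSL(2, 2 ^ n)`, `3 ∤ n`, and it is not a proper power: its exponent
sum in `x` is `3`, and it acts on `ℤ × {0, …, 4}` (`y` by the shift, `x` on two fibres) by a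
permutation with exactly one cycle of length three, so it is not a cube.
-/

set_option autoImplicit false

open Matrix
open scoped MatrixGroups

namespace Pool.Agent.Results.MP_215b2d_al.AllOddLengths

open Pool.Agent.Results.MP_215b2d_al.OddWord

/-! ### The words -/

/-- The word `w(x, yᵇ)`, as a list of blocks. -/
def blocks (b : ℕ) : List (List (Fin 2 × Bool)) :=
  [List.replicate 6 (0, true), List.replicate b (1, true), List.replicate 2 (0, false),
    List.replicate b (1, false), List.replicate 2 (0, true), List.replicate b (1, true),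
    List.replicate 3 (0, false), List.replicate b (1, false), List.replicate 1 (0, true),
    List.replicate b (1, true), List.replicate 1 (0, false), List.replicate b (1, false)]

/-- The reduced word of `yʲ w(x, yᵇ) y⁻ʲ`. -/
def W (b j : ℕ) : List (Fin 2 × Bool) :=
  List.replicate j (1, true) ++ ((blocks b).flatten ++ List.replicate j (1, false))

theorem reduced_core (b : ℕ) (hb : 1 ≤ b) : FreeGroup.IsReduced (blocks b).flatten := by
  obtain ⟨c, rfl⟩ := Nat.exists_eq_add_of_le' hb
  unfold FreeGroup.IsReduced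
  rw [List.isChain_flatten]
  · constructor
    · intro l hl
      simp only [blocks, List.mem_cons, List.not_mem_nil, or_false] at hl
      rcases hl with h | h | h | h | h | h | h | h | h | h | h | h <;> rw [h] <;>
        exact List.isChain_replicate_of_rel _ (fun _ => rfl)
    · simp [blocks, List.isChain_cons_cons, List.getLast?_replicate, List.head?_replicate]
  · simp [blocks, List.replicate_succ]

theorem head_core (b : ℕ) : (blocks b).flatten.head? = some (0, true) := by
  simp [blocks, List.replicate_succ]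

theorem last_core (b : ℕ) (hb : 1 ≤ b) : (blocks b).flatten.getLast? = some (1, false) := by
  obtain ⟨c, rfl⟩ := Nat.exists_eq_add_of_le' hb
  have e : blocks (c + 1) = (blocks (c + 1)).take 11 ++ [List.replicate (c + 1) (1, false)] := rfl
  rw [e, List.flatten_append, List.getLast?_append]
  simp [List.getLast?_replicate]

theorem reduced_W (b j : ℕ) (hb : 1 ≤ b) : FreeGroup.IsReduced (W b j) := by
  have h1 : FreeGroup.IsReduced ((blocks b).flatten ++ List.replicate j (1, false)) := by
    unfold FreeGroup.IsReduced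
    rw [List.isChain_append]
    refine ⟨reduced_core b hb, List.isChain_replicate_of_rel _ (fun _ => rfl), ?_⟩
    intro x hx y hy
    rw [last_core b hb] at hx
    rw [List.head?_replicate] at hy
    split_ifs at hy with h0
    · simp at hy
    · simp at hx hy
      rw [← hx, ← hy]
      exact fun _ => rfl
  unfold W FreeGroup.IsReduced
  rw [List.isChain_append]
  refine ⟨List.isChain_replicate_of_rel _ (fun _ => rfl), h1, ?_⟩
  intro x hx y hy
  rw [List.head?_append, head_core] at hy
  rw [List.getLast?_replicate] at hx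
  split_ifs at hx with h0
  · simp at hx
  · simp at hx hy
    rw [← hx, ← hy]
    simp

theorem length_W (b j : ℕ) : (W b j).length = 15 + 6 * b + 2 * j := by
  simp [W, blocks]
  ring

theorem cyc_W (b : ℕ) (hb : 1 ≤ b) : FreeGroup.IsCyclicallyReduced (W b 0) := by
  refine ⟨reduced_W b 0 hb, ?_⟩
  have e : W b 0 = (blocks b).flatten := by simp [W]
  rw [e]
  intro x hx y hy
  rw [last_core b hb] at hx
  rw [head_core] at hy
  simp at hx hy
  rw [← hx, ← hy]
  simp

/-- The element `yʲ w(x, yᵇ) y⁻ʲ` of the free group. -/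
def el (b j : ℕ) : FreeGroup (Fin 2) := FreeGroup.mk (W b j)

theorem toWord_el (b j : ℕ) (hb : 1 ≤ b) : (el b j).toWord = W b j := by
  rw [el, FreeGroup.toWord_mk, (reduced_W b j hb).reduce_eq]

theorem lift_el {G : Type*} [Group G] (x y : G) (b j : ℕ) :
    FreeGroup.lift ![x, y] (el b j) = y ^ j * wordVal x (y ^ b) * (y ^ j)⁻¹ := by
  rw [el, FreeGroup.lift_mk]
  simp only [W, blocks, List.map_append, List.flatten_cons, List.flatten_nil, List.prod_append,
    List.map_replicate, List.prod_replicate, cond_true, cond_false, List.append_nil,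
    Matrix.cons_val_zero, Matrix.cons_val_one]
  unfold wordVal
  simp only [inv_pow, pow_one, mul_assoc]

/-! ### Not a proper power -/

/-- A permutation with exactly one cycle of length three is not a cube. -/
theorem not_cube {Ω : Type*} (σ τ : Equiv.Perm Ω) (p : Ω) (hp1 : (σ ^ 3) p = p) (hp2 : σ p ≠ p)
    (huniq : ∀ z, (σ ^ 3) z = z → σ z ≠ z → z = p ∨ z = σ p ∨ z = (σ ^ 2) p) : τ ^ 3 ≠ σ := by
  intro h
  have hc : Commute τ σ := by rw [← h]; exact (Commute.refl τ).pow_right 3
  have c1 : ∀ z, σ (τ z) = τ (σ z) := fun z => by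
    have := congrArg (fun f : Equiv.Perm Ω => f z) hc.eq
    simpa using this.symm
  have c3 : ∀ z, (σ ^ 3) (τ z) = τ ((σ ^ 3) z) := fun z => by
    have := congrArg (fun f : Equiv.Perm Ω => f z) (hc.pow_right 3).eq
    simpa using this.symm
  have c2 : ∀ z, (σ ^ 2) (τ z) = τ ((σ ^ 2) z) := fun z => by
    have := congrArg (fun f : Equiv.Perm Ω => f z) (hc.pow_right 2).eq
    simpa using this.symm
  have h1 : (σ ^ 3) (τ p) = τ p := by rw [c3, hp1]
  have h2 : σ (τ p) ≠ τ p := by
    rw [c1]
    exact fun h => hp2 (τ.injective h)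
  have hτ : ∀ z, τ (τ (τ z)) = σ z := fun z => by rw [← h]; rfl
  have hσ3 : σ (σ (σ p)) = p := hp1
  apply hp2
  rw [← hτ]
  rcases huniq _ h1 h2 with h3 | h3 | h3
  · rw [h3, h3, h3]
  · rw [h3, ← c1, h3, ← c1, ← c1, h3]
    exact hσ3
  · have e2 : ∀ z, (σ ^ 2) z = σ (σ z) := fun z => rfl
    rw [h3, ← c2, h3, ← c2, ← c2, h3]
    simp only [e2]
    rw [hσ3, hσ3]

/-- The two permutations of five points. -/
def A : Equiv.Perm (Fin 5) := c[0, 1] * c[2, 3, 4]

def C : Equiv.Perm (Fin 5) := c[0, 2] * c[1, 3]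

def B : Equiv.Perm (Fin 5) := C * A * C⁻¹

/-- The value of the word in terms of `x` and `y x y⁻¹`. -/
def val2 {G : Type*} [Group G] (a b : G) : G := a ^ 6 * (b⁻¹) ^ 2 * a ^ 2 * (b⁻¹) ^ 3 * a * b⁻¹

/-- The shift. -/
def Y : Equiv.Perm (ℤ × Fin 5) := Equiv.prodCongr (Equiv.addRight 1) (Equiv.refl _)

theorem Y_pow (b : ℕ) (m : ℤ) (i : Fin 5) : (Y ^ b) (m, i) = (m + b, i) := by
  induction b generalizing m with
  | zero => simp
  | succ b ih =>
    rw [pow_succ, Equiv.Perm.mul_apply]
    show (Y ^ b) (m + 1, i) = _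
    rw [ih]
    push_cast
    congr 1
    ring

/-- Permutations acting fibre by fibre. -/
def fib : (ℤ → Equiv.Perm (Fin 5)) →* Equiv.Perm (ℤ × Fin 5) where
  toFun f := Equiv.prodCongrRight f
  map_one' := by ext z <;> rfl
  map_mul' f g := by ext z <;> rfl

theorem fib_apply (f : ℤ → Equiv.Perm (Fin 5)) (m : ℤ) (i : Fin 5) : fib f (m, i) = (m, f m i) :=
  rfl

theorem conj_fib (b : ℕ) (f : ℤ → Equiv.Perm (Fin 5)) :
    Y ^ b * fib f * (Y ^ b)⁻¹ = fib fun m => f (m - b) := by
  rw [mul_inv_eq_iff_eq_mul]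
  ext1 ⟨m, i⟩
  simp only [Equiv.Perm.mul_apply, fib_apply, Y_pow, add_sub_cancel_right]

/-- `x` acts by `A` on the fibre over `0` and by `B` on the fibre over `-b`. -/
def fx (b : ℕ) : ℤ → Equiv.Perm (Fin 5) := fun m => if m = 0 then A else if m = -b then B else 1

theorem val_fib (b : ℕ) : wordVal (fib (fx b)) (Y ^ b) =
    fib fun m => val2 (fx b m) (fx b (m - b)) := by
  rw [wordVal_eq, conj_fib]
  have : (fun m => val2 (fx b m) (fx b (m - b))) = val2 (fx b) (fun m => fx b (m - b)) := rfl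
  rw [this]
  simp only [val2, map_mul, map_pow, map_inv]

theorem fiber_cases (b : ℕ) (hb : 1 ≤ b) (m : ℤ) :
    (m = 0 ∧ val2 (fx b m) (fx b (m - b)) = val2 A B) ∨
    (m ≠ 0 ∧ ∀ i, ((val2 (fx b m) (fx b (m - b))) ^ 3) i = i →
      (val2 (fx b m) (fx b (m - b))) i = i) := by
  have hb' : (1 : ℤ) ≤ b := by exact_mod_cast hb
  by_cases h0 : m = 0
  · left
    refine ⟨h0, ?_⟩
    subst h0
    unfold fx
    rw [if_pos rfl, if_neg (by omega), if_pos (by omega)]
  · right
    refine ⟨h0, ?_⟩
    by_cases h1 : m = b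
    · have e : val2 (fx b m) (fx b (m - b)) = val2 1 A := by
        unfold fx
        rw [if_neg h0, if_neg (by omega), if_pos (by omega)]
      rw [e]
      decide +kernel
    · by_cases h2 : m = -b
      · have e : val2 (fx b m) (fx b (m - b)) = val2 B 1 := by
          unfold fx
          rw [if_neg h0, if_pos h2, if_neg (by omega), if_neg (by omega)]
        rw [e]
        decide +kernel
      · have e : val2 (fx b m) (fx b (m - b)) = val2 1 1 := by
          unfold fx
          rw [if_neg h0, if_neg h2, if_neg (by omega), if_neg (by omega)]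
        rw [e]
        decide +kernel

theorem fiber_zero : ∃ p : Fin 5, ((val2 A B) ^ 3) p = p ∧ val2 A B p ≠ p ∧
    ∀ z, ((val2 A B) ^ 3) z = z → val2 A B z ≠ z →
      z = p ∨ z = val2 A B p ∨ z = ((val2 A B) ^ 2) p := by
  decide +kernel

theorem not_cube_word (b : ℕ) (hb : 1 ≤ b) (τ : Equiv.Perm (ℤ × Fin 5)) :
    τ ^ 3 ≠ wordVal (fib (fx b)) (Y ^ b) := by
  obtain ⟨p, hp1, hp2, hu⟩ := fiber_zero
  rw [val_fib]
  have hpow : ∀ (n : ℕ) (m : ℤ) (i : Fin 5),
      ((fib fun m => val2 (fx b m) (fx b (m - b))) ^ n) (m, i) =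
        (m, ((val2 (fx b m) (fx b (m - b))) ^ n) i) := by
    intro n m i
    rw [← map_pow]
    rfl
  have hz : val2 (fx b 0) (fx b (0 - b)) = val2 A B := by
    rcases fiber_cases b hb 0 with h | h
    · exact h.2
    · exact absurd rfl h.1
  refine not_cube _ τ (0, p) ?_ ?_ ?_
  · rw [hpow, hz, hp1]
  · rw [fib_apply, hz]
    exact fun h => hp2 (Prod.mk.inj h).2
  · rintro ⟨m, i⟩ h3 h1
    rw [hpow] at h3
    rw [fib_apply] at h1
    rw [hpow, fib_apply]
    rcases fiber_cases b hb m with ⟨rfl, h⟩ | ⟨-, h⟩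
    · rw [h] at h1 h3 ⊢
      have h3' := (Prod.mk.inj h3).2
      have h1' : val2 A B i ≠ i := fun e => h1 (by rw [e])
      rcases hu i h3' h1' with h4 | h4 | h4
      · left; rw [h4]
      · right; left; rw [h4]
      · right; right; rw [h4]
    · have h3' := (Prod.mk.inj h3).2
      have h1' := h i h3'
      exact absurd (by rw [h1']) h1

theorem not_pow (b j : ℕ) (hb : 1 ≤ b) (v : FreeGroup (Fin 2)) (k : ℕ) (hk : 2 ≤ k) :
    v ^ k ≠ el b j := by
  intro h
  -- the exponent sum of `x` is `3`, so `k = 3`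
  let φ : FreeGroup (Fin 2) →* Multiplicative ℤ :=
    FreeGroup.lift ![Multiplicative.ofAdd 1, 1]
  have h1 : φ (v ^ k) = Multiplicative.ofAdd 3 := by
    rw [h]
    change FreeGroup.lift ![Multiplicative.ofAdd 1, 1] (el b j) = _
    rw [lift_el, one_pow, one_pow, one_mul, inv_one, mul_one]
    rfl
  have h2 : (k : ℤ) * Multiplicative.toAdd (φ v) = 3 := by
    rw [map_pow] at h1
    have := congrArg Multiplicative.toAdd h1
    rw [toAdd_pow, toAdd_ofAdd, nsmul_eq_mul] at this
    exact this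
  have h3 : k = 3 := by
    have hd : (k : ℤ) ∣ 3 := ⟨_, h2.symm⟩
    have hd' : k ∣ 3 := by exact_mod_cast hd
    rcases (Nat.dvd_prime Nat.prime_three).1 hd' with h | h
    · omega
    · exact h
  subst h3
  let ψ : FreeGroup (Fin 2) →* Equiv.Perm (ℤ × Fin 5) := FreeGroup.lift ![fib (fx b), Y]
  have h4 : (ψ v) ^ 3 = Y ^ j * wordVal (fib (fx b)) (Y ^ b) * (Y ^ j)⁻¹ := by
    rw [← map_pow, h]
    exact lift_el _ _ b j
  refine not_cube_word b hb ((Y ^ j)⁻¹ * ψ v * Y ^ j) ?_
  have h5 : ((Y ^ j)⁻¹ * ψ v * Y ^ j) ^ 3 = (Y ^ j)⁻¹ * (ψ v) ^ 3 * Y ^ j := by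
    have := conj_pow (i := 3) (a := (Y ^ j)⁻¹) (b := ψ v)
    rwa [inv_inv] at this
  rw [h5, h4]
  group

/-! ### Non-surjectivity -/

theorem not_surj_el {F : Type} [Field F] {n : ℕ} (hn : ¬ 3 ∣ n) (hF : Nat.card F = 2 ^ n)
    (b j : ℕ) : ¬ Function.Surjective (fun gh : PSL(2, F) × PSL(2, F) =>
      FreeGroup.lift ![gh.1, gh.2] (el b j)) := by
  intro hs
  apply not_surj (F := F) hn hF
  intro t
  obtain ⟨⟨g, h⟩, hgh⟩ := hs t
  refine ⟨(h ^ j * g * (h ^ j)⁻¹, h ^ b), ?_⟩
  rw [← hgh]
  simp only [lift_wrd, lift_el]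
  have e : h ^ b = h ^ j * h ^ b * (h ^ j)⁻¹ := by
    rw [← pow_add, add_comm, pow_add, mul_inv_cancel_right]
  have key := map_wordVal (MulAut.conj (h ^ j)).toMonoidHom g (h ^ b)
  simp only [MulEquiv.coe_toMonoidHom, MulAut.conj_apply] at key
  rw [key, ← e]

/-- `w` is not a proper power, and for every `n` not divisible by three its word map is not
surjective on `PSL(2, F)` for the field `F` with `2 ^ n` elements. -/
def Good (w : FreeGroup (Fin 2)) : Prop :=
  (∀ (v : FreeGroup (Fin 2)) (k : ℕ), 2 ≤ k → v ^ k ≠ w) ∧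
  ∀ n : ℕ, ¬ 3 ∣ n → ∀ (F : Type) [Field F], Nat.card F = 2 ^ n →
    ¬ Function.Surjective (fun gh : PSL(2, F) × PSL(2, F) =>
      FreeGroup.lift ![gh.1, gh.2] w)

theorem good_el (b j : ℕ) (hb : 1 ≤ b) : Good (el b j) :=
  ⟨fun v k hk => not_pow b j hb v k hk, fun _ hn _ _ hF => not_surj_el hn hF b j⟩

/-- **Every odd number `N ≥ 21` is the length of a word which is not a proper power and which is
non-surjective on `PSL(2, q)` for infinitely many `q`** (for all `q = 2 ^ n` with `n` not
divisible by three). For `N ≡ 3` modulo `6` there is a cyclically reduced word of this kind, of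
length `N`. -/
theorem result :
    (∀ N : ℕ, Odd N → 21 ≤ N → ∃ w : FreeGroup (Fin 2), w.toWord.length = N ∧ Good w ∧
      {q : ℕ | IsPrimePow q ∧ ∀ (F : Type) [Field F], Nat.card F = q →
        ¬ Function.Surjective (fun gh : PSL(2, F) × PSL(2, F) =>
          FreeGroup.lift ![gh.1, gh.2] w)}.Infinite) ∧
    (∀ N : ℕ, N % 6 = 3 → 21 ≤ N → ∃ w : FreeGroup (Fin 2),
      FreeGroup.IsCyclicallyReduced w.toWord ∧ w.toWord.length = N ∧ Good w) := by
  have hinf : ∀ w, Good w → {q : ℕ | IsPrimePow q ∧ ∀ (F : Type) [Field F], Nat.card F = q →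
        ¬ Function.Surjective (fun gh : PSL(2, F) × PSL(2, F) =>
          FreeGroup.lift ![gh.1, gh.2] w)}.Infinite := by
    intro w hw
    refine Set.infinite_of_injective_forall_mem (f := fun m : ℕ => 2 ^ (3 * m + 1)) ?_ ?_
    · intro i j hij
      have := Nat.pow_right_injective (le_refl 2) hij
      omega
    · intro m
      refine ⟨(Nat.prime_two.isPrimePow).pow (by omega), fun F _ hF =>
        hw.2 (3 * m + 1) (by omega) F hF⟩
  refine ⟨fun N hN h21 => ?_, fun N hN h21 => ?_⟩
  · obtain ⟨r, hr⟩ := hN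
    refine ⟨el 1 (r - 10), ?_, good_el 1 _ le_rfl, hinf _ (good_el 1 _ le_rfl)⟩
    rw [toWord_el _ _ le_rfl, length_W]
    omega
  · have hb : 1 ≤ (N - 15) / 6 := by omega
    refine ⟨el ((N - 15) / 6) 0, ?_, ?_, good_el _ _ hb⟩
    · rw [toWord_el _ _ hb]
      exact cyc_W _ hb
    · rw [toWord_el _ _ hb, length_W]
      omega

end Pool.Agent.Results.MP_215b2d_al.AllOddLengths
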